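import Pool.Agent.P.MP_bdd694_an.Series

/-! Every Hadamard gap series converging in the unit disc has a radial limit, finite or infinite,
at some point of the unit circle. -/

open Finset Filter Topology

namespace Pool.Agent.Results.MP_bdd694_an.RadialLimit

open Pool.Agent.P.MP_bdd694_an

theorem result (a : ℕ → ℂ) (lam : ℕ → ℕ) (hmono : StrictMono lam) (q : ℝ) (hq : 1 < q)
    (hgap : ∀ n, 1 ≤ lam n → q ≤ (lam (n + 1) : ℝ) / (lam n : ℝ)) (f : ℂ → ℂ)
    (hf : ∀ z : ℂ, ‖z‖ < 1 →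
      Tendsto (fun N : ℕ => ∑ n ∈ range N, a n * z ^ lam n) atTop (𝓝 (f z))) :
    ∃ θ : ℝ,
      (∃ L : ℂ, Tendsto (fun r : ℝ => f (r * Complex.exp (θ * Complex.I))) (𝓝[<] 1) (𝓝 L)) ∨
      Tendsto (fun r : ℝ => ‖f (r * Complex.exp (θ * Complex.I))‖) (𝓝[<] 1) atTop := by
  have ev : ∀ᶠ r : ℝ in 𝓝[<] 1, r ∈ Set.Ioo (0 : ℝ) 1 := Ioo_mem_nhdsLT one_pos
  by_cases hs : Summable fun n => ‖a n‖
  · refine ⟨0, Or.inl ⟨∑' n, a n * (1 : ℂ) ^ lam n, ?_⟩⟩
    have lim : Tendsto (fun r : ℝ => ∑' n, a n * (r : ℂ) ^ lam n) (𝓝[<] 1)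
        (𝓝 (∑' n, a n * (1 : ℂ) ^ lam n)) := by
      refine tendsto_tsum_of_dominated_convergence hs (fun n => ?_) ?_
      · have ct : Continuous fun r : ℝ => a n * (r : ℂ) ^ lam n := by fun_prop
        simpa using (ct.tendsto 1).mono_left nhdsWithin_le_nhds
      · filter_upwards [ev] with r hr n
        rw [norm_mul, norm_pow, Complex.norm_real, Real.norm_of_nonneg hr.1.le]
        exact mul_le_of_le_one_right (norm_nonneg _) (pow_le_one₀ hr.1.le hr.2.le)
    refine lim.congr' ?_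
    filter_upwards [ev] with r hr
    simpa using (eq_tsum hmono hf (z := r)
      (by rw [Complex.norm_real, Real.norm_of_nonneg hr.1.le]; exact hr.2)).tsum_eq
  obtain ⟨η, C, θ, k, hη, H⟩ := radial_lower hmono hq hgap hf
  refine ⟨θ, Or.inr (tendsto_atTop.2 fun B => ?_)⟩
  have div := (not_summable_iff_tendsto_nat_atTop_of_nonneg fun n => norm_nonneg (a n)).1 hs
  obtain ⟨K, hK1, hK2⟩ := ((div.eventually_gt_atTop ((B + C) / η + ∑ j ∈ range k, ‖a j‖)).and
    (eventually_ge_atTop k)).exists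
  rw [← sum_range_add_sum_Ico _ hK2] at hK1
  have hK3 : B + C < η * ∑ j ∈ Ico k K, ‖a j‖ * (1 : ℝ) ^ lam j := by
    have : (B + C) / η < ∑ j ∈ Ico k K, ‖a j‖ := by linarith
    rw [div_lt_iff₀ hη] at this
    simpa [mul_comm] using this
  have ct : Continuous fun r : ℝ => η * ∑ j ∈ Ico k K, ‖a j‖ * r ^ lam j := by fun_prop
  filter_upwards [ev, ((ct.tendsto 1).mono_left nhdsWithin_le_nhds).eventually (lt_mem_nhds hK3)]
    with r hr h
  linarith [H r hr.1 hr.2 K]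

end Pool.Agent.Results.MP_bdd694_an.RadialLimit
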